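import Pool.Agent.TH708.Dsh.Lower

set_option linter.unusedSectionVars false
set_option autoImplicit false

/-!
# The asymptotic form
-/

namespace Pool.Agent.TH708.Dsh

open Finset Pool.Agent.TH708.Dec

theorem eventually_params (ε : ℝ) (hε : 0 < ε) (hε' : ε ≤ 1 / 2) : ∃ l₀ : ℕ, ∀ l : ℕ, l₀ ≤ l →
    ε ^ 2 * (l : ℝ) ^ 2 < (2 : ℝ) ^ (ε / 4 * l) ∧
    ε ^ 2 / 8 * (l : ℝ) ^ 2 + l < (3 * ε * l / 8 - 1) ^ 2 ∧ 12 ≤ l ∧ 1 ≤ 3 * ε * l / 8 := by
  have h1 : ∀ᶠ l : ℕ in Filter.atTop, ε ^ 2 * (l : ℝ) ^ 2 < (2 : ℝ) ^ (ε / 4 * l) := by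
    have hr : (1 : ℝ) < 2 ^ (ε / 4) := Real.one_lt_rpow (by norm_num) (by positivity)
    have ht := tendsto_pow_const_div_const_pow_of_one_lt 2 hr
    have he := ht.eventually_lt_const (u := 1 / ε ^ 2) (by positivity)
    filter_upwards [he] with l hl
    have hpos : (0 : ℝ) < (2 ^ (ε / 4)) ^ l := by positivity
    rw [div_lt_div_iff₀ hpos (by positivity)] at hl
    rw [Real.rpow_mul (by norm_num), Real.rpow_natCast]
    linarith
  have h2 : ∀ᶠ l : ℕ in Filter.atTop, max (128 / ε ^ 2 + 1) (max 12 (8 / (3 * ε))) ≤ (l : ℝ) :=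
    tendsto_natCast_atTop_atTop.eventually_ge_atTop _
  obtain ⟨l₀, hl₀⟩ := Filter.eventually_atTop.1 (h1.and h2)
  refine ⟨l₀, fun l hl => ?_⟩
  obtain ⟨a1, a2⟩ := hl₀ l hl
  rw [max_le_iff, max_le_iff] at a2
  obtain ⟨b1, b2, b3⟩ := a2
  have hc1 : 128 / ε ^ 2 < (l : ℝ) := by linarith
  rw [div_lt_iff₀ (by positivity)] at hc1
  have hc3 : 8 / (3 * ε) ≤ (l : ℝ) := b3
  rw [div_le_iff₀ (by positivity)] at hc3
  refine ⟨a1, ?_, by exact_mod_cast b2, by linarith⟩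
  have hl0 : (0 : ℝ) < l := by linarith
  nlinarith

theorem depth_or_share (ε : ℝ) (hε : 0 < ε) (hε' : ε ≤ 1 / 2) : ∃ N₀ : ℕ,
    ∀ (n : ℕ) (C : Ckt (Fin n × Fin 3)),
      (∀ z, Dyck (untyped z) → (C.eval z = true ↔ Dyck z)) →
      ∀ W : Finset (Fin n), N₀ ≤ W.card →
        ε ^ 2 / 8 * (Nat.log 2 W.card : ℝ) ^ 2 ≤ C.depth ∨
        ∃ g a b, C.kind g = Kind.and a b ∧
          (W.card : ℝ) ^ (1 / 2 - ε) < (common C W a b).card := by
  obtain ⟨l₀, hl₀⟩ := eventually_params ε hε hε'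
  refine ⟨2 ^ l₀, fun n C hC W hW => ?_⟩
  have hWne : W.card ≠ 0 := by
    have : 0 < 2 ^ l₀ := by positivity
    omega
  set l := Nat.log 2 W.card with hl
  have hll : l₀ ≤ l := Nat.le_log_of_pow_le (by norm_num) hW
  obtain ⟨p1, p2, p3, p4⟩ := hl₀ l hll
  by_contra hcon
  rw [not_or] at hcon
  obtain ⟨c1, c2⟩ := hcon
  push Not at c1 c2
  have hWl : 2 ^ l ≤ W.card := Nat.pow_log_le_self 2 hWne
  have hWu : W.card < 2 ^ (l + 1) := Nat.lt_pow_succ_log_self (by norm_num) _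
  have hW1 : (1 : ℝ) ≤ W.card := by exact_mod_cast Nat.one_le_iff_ne_zero.2 hWne
  -- the parameters
  set μ := ⌊(W.card : ℝ) ^ (1 / 2 - ε)⌋₊ with hμ
  have hWp : (1 : ℝ) ≤ (W.card : ℝ) ^ (1 / 2 - ε) := Real.one_le_rpow hW1 (by linarith)
  have hμr : (μ : ℝ) ≤ (W.card : ℝ) ^ (1 / 2 - ε) := Nat.floor_le (by positivity)
  set i := ⌊3 * ε * l / 8⌋₊ with hi
  have hi1 : (i : ℝ) ≤ 3 * ε * l / 8 := Nat.floor_le (by positivity)
  have hi2 : 3 * ε * l / 8 < i + 1 := Nat.lt_floor_add_one _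
  have hl12 : (12 : ℝ) ≤ l := by exact_mod_cast p3
  obtain ⟨h, hh⟩ : ∃ h, h = l / 2 := ⟨_, rfl⟩
  have hh1 : 2 * h ≤ l := by omega
  have hh2 : l ≤ 2 * h + 1 := by omega
  have hh2r : (l : ℝ) ≤ 2 * h + 1 := by exact_mod_cast hh2
  have hh1r : 2 * (h : ℝ) ≤ l := by exact_mod_cast hh1
  have hij : i + i + 1 ≤ h := by
    have : (i : ℝ) + i + 1 ≤ h := by nlinarith
    exact_mod_cast this
  have h4 : 4 ^ h ≤ W.card := by
    refine le_trans ?_ hWl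
    rw [show (4 : ℕ) = 2 ^ 2 by norm_num, ← pow_mul]
    exact Nat.pow_le_pow_right (by norm_num) hh1
  rcases circuit_lower h i i hij C hC W μ (fun g a b hg => by
    rw [hμ]; exact Nat.le_floor (c2 g a b hg)) h4 with h5 | h5
  · have h6 : (i : ℝ) * i ≤ C.depth + 2 * h := by exact_mod_cast h5
    have h7 : (3 * ε * l / 8 - 1) ^ 2 ≤ (i : ℝ) * i := by
      have : 0 ≤ 3 * ε * l / 8 - 1 := by linarith
      have h8 : 3 * ε * l / 8 - 1 ≤ i := by linarith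
      nlinarith
    linarith
  · have h6 : (2 : ℝ) ^ (h - i - i - 1) ≤ (μ + 1) * C.depth := by exact_mod_cast h5
    have h7 : (2 : ℝ) ^ ((l : ℝ) / 2 - 3 * ε * l / 4 - 3 / 2) ≤ (2 : ℝ) ^ (h - i - i - 1) := by
      rw [← Real.rpow_natCast]
      apply Real.rpow_le_rpow_of_exponent_le (by norm_num)
      rw [Nat.cast_sub (by omega), Nat.cast_sub (by omega), Nat.cast_sub (by omega)]
      push_cast
      linarith
    have h8 : (μ : ℝ) + 1 ≤ 2 ^ (3 / 2 + (l : ℝ) / 2 - ε * l) := by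
      have a1 : (W.card : ℝ) ^ (1 / 2 - ε) ≤ ((2 : ℝ) ^ ((l : ℝ) + 1)) ^ (1 / 2 - ε) := by
        apply Real.rpow_le_rpow (by positivity) _ (by linarith)
        have : (W.card : ℝ) ≤ (2 : ℝ) ^ (l + 1) := by exact_mod_cast hWu.le
        rw [← Nat.cast_succ, Real.rpow_natCast]
        exact this
      rw [← Real.rpow_mul (by norm_num)] at a1
      calc (μ : ℝ) + 1 ≤ 2 * (W.card : ℝ) ^ (1 / 2 - ε) := by linarith
        _ ≤ 2 * (2 : ℝ) ^ (((l : ℝ) + 1) * (1 / 2 - ε)) := by linarith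
        _ = (2 : ℝ) ^ (1 + ((l : ℝ) + 1) * (1 / 2 - ε)) := by
            rw [Real.rpow_add (by norm_num), Real.rpow_one]
        _ ≤ _ := by
            apply Real.rpow_le_rpow_of_exponent_le (by norm_num)
            nlinarith
    have h9 : (2 : ℝ) ^ ((l : ℝ) / 2 - 3 * ε * l / 4 - 3 / 2) ≤
        2 ^ (3 / 2 + (l : ℝ) / 2 - ε * l) * C.depth :=
      h7.trans (h6.trans (mul_le_mul_of_nonneg_right h8 (by positivity)))
    have h10 : (2 : ℝ) ^ ((l : ℝ) / 2 - 3 * ε * l / 4 - 3 / 2) =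
        2 ^ (3 / 2 + (l : ℝ) / 2 - ε * l) * (2 ^ (ε / 4 * l) / 8) := by
      have : (8 : ℝ) = 2 ^ (3 : ℝ) := by norm_num
      rw [this, ← Real.rpow_sub (by norm_num), ← Real.rpow_add (by norm_num)]
      congr 1; ring
    rw [h10] at h9
    have h11 := le_of_mul_le_mul_left h9 (by positivity)
    linarith

end Pool.Agent.TH708.Dsh
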