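import Pool.Agent.TH708.Dec.Binom

set_option linter.unusedSectionVars false
set_option autoImplicit false

/-!
# Tracked formulas whose AND gates share few variables: splitting and covers
-/

namespace Pool.Agent.TH708.Dsh

open Finset Pool.Agent.TH708.Dec

variable {V R : Type} [DecidableEq V] [Fintype V]

/-- The largest sum, over a path, of the numbers of tracked variables which both inputs of an AND
gate read. -/
def shr : TF V R → ℕ
  | TF.lit _ _ => 0
  | TF.side _ => 0
  | TF.fls => 0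
  | TF.and F G => (TF.occ F ∩ TF.occ G).card + max (shr F) (shr G)
  | TF.or F G => max (shr F) (shr G)

/-- **Splitting.** -/
theorem split (K : ℕ) (hK : 2 ≤ K) (F : TF V R) (hF : 2 * K < 3 * (TF.occ F).card) :
    ∃ (F₀ u S : TF V R) (M : Finset V),
      (∀ r x, TF.eval r x F = (TF.eval r x F₀ || (TF.eval r x u && TF.eval r x S))) ∧
      TF.L F₀ + TF.L u ≤ TF.L F ∧
      TF.occ F₀ ⊆ TF.occ F ∧ TF.occ u ⊆ TF.occ F ∧ TF.occ S ⊆ TF.occ F ∧
      TF.occ S ∩ TF.occ u ⊆ M ∧ M.card + shr u ≤ shr F ∧ shr F₀ ≤ shr F ∧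
      K < 3 * (TF.occ u).card ∧ 3 * (TF.occ u).card ≤ 2 * K := by
  induction F with
  | lit i b =>
    have := TF.card_occ_lit (R := R) i b
    omega
  | side g => rw [TF.occ_side] at hF; simp at hF
  | fls => rw [TF.occ_fls] at hF; simp at hF
  | or F G ihF ihG =>
    rw [TF.occ_or] at hF
    have hcard := card_union_le (TF.occ F) (TF.occ G)
    rcases le_total (TF.occ G).card (TF.occ F).card with hle | hle
    · by_cases hs : 3 * (TF.occ F).card ≤ 2 * K
      · refine ⟨TF.or TF.fls G, F, TF.side (fun _ => true), ∅, ?_, ?_, ?_, ?_, ?_, ?_, ?_, ?_, ?_,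
          hs⟩
        · intro r x; simp only [TF.eval]; cases TF.eval r x F <;> cases TF.eval r x G <;> rfl
        · simp only [TF.L]; omega
        · rw [TF.occ_or, TF.occ_or, TF.occ_fls]
          exact union_subset_union_left (empty_subset _)
        · rw [TF.occ_or]; exact subset_union_left
        · rw [TF.occ_side]; exact empty_subset _
        · rw [TF.occ_side, empty_inter]
        · simp only [shr, card_empty]; omega
        · simp only [shr]; omega
        · omega
      · obtain ⟨F₀, u, S, M, h1, h2, h3, h4, h5, h6, h7, h8, h9, h10⟩ := ihF (by omega)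
        refine ⟨TF.or F₀ G, u, S, M, ?_, ?_, ?_, ?_, ?_, h6, ?_, ?_, h9, h10⟩
        · intro r x; simp only [TF.eval, h1 r x]
          cases TF.eval r x F₀ <;> cases TF.eval r x G <;> simp
        · simp only [TF.L]; omega
        · rw [TF.occ_or, TF.occ_or]; exact union_subset_union_left h3
        · rw [TF.occ_or]; exact h4.trans subset_union_left
        · rw [TF.occ_or]; exact h5.trans subset_union_left
        · simp only [shr]; omega
        · simp only [shr]; omega
    · by_cases hs : 3 * (TF.occ G).card ≤ 2 * K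
      · refine ⟨TF.or TF.fls F, G, TF.side (fun _ => true), ∅, ?_, ?_, ?_, ?_, ?_, ?_, ?_, ?_, ?_,
          hs⟩
        · intro r x; simp only [TF.eval]; cases TF.eval r x F <;> cases TF.eval r x G <;> rfl
        · simp only [TF.L]; omega
        · rw [TF.occ_or, TF.occ_or, TF.occ_fls, empty_union]
          exact subset_union_left
        · rw [TF.occ_or]; exact subset_union_right
        · rw [TF.occ_side]; exact empty_subset _
        · rw [TF.occ_side, empty_inter]
        · simp only [shr, card_empty]; omega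
        · simp only [shr]; omega
        · omega
      · obtain ⟨F₀, u, S, M, h1, h2, h3, h4, h5, h6, h7, h8, h9, h10⟩ := ihG (by omega)
        refine ⟨TF.or F₀ F, u, S, M, ?_, ?_, ?_, ?_, ?_, h6, ?_, ?_, h9, h10⟩
        · intro r x; simp only [TF.eval, h1 r x]
          cases TF.eval r x F₀ <;> cases TF.eval r x F <;> simp
        · simp only [TF.L]; omega
        · rw [TF.occ_or, TF.occ_or, union_comm (TF.occ F) (TF.occ G)]
          exact union_subset_union_left h3
        · rw [TF.occ_or]; exact h4.trans subset_union_right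
        · rw [TF.occ_or]; exact h5.trans subset_union_right
        · simp only [shr]; omega
        · simp only [shr]; omega
  | and F G ihF ihG =>
    rw [TF.occ_and] at hF
    have hcard := card_union_le (TF.occ F) (TF.occ G)
    rcases le_total (TF.occ G).card (TF.occ F).card with hle | hle
    · by_cases hs : 3 * (TF.occ F).card ≤ 2 * K
      · refine ⟨TF.fls, F, G, TF.occ F ∩ TF.occ G, ?_, ?_, ?_, ?_, ?_, ?_, ?_, ?_, ?_, hs⟩
        · intro r x; simp only [TF.eval]; cases TF.eval r x F <;> cases TF.eval r x G <;> rfl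
        · simp only [TF.L]; omega
        · rw [TF.occ_fls]; exact empty_subset _
        · rw [TF.occ_and]; exact subset_union_left
        · rw [TF.occ_and]; exact subset_union_right
        · rw [inter_comm]
        · simp only [shr]; omega
        · simp only [shr]; omega
        · omega
      · obtain ⟨F₀, u, S, M, h1, h2, h3, h4, h5, h6, h7, h8, h9, h10⟩ := ihF (by omega)
        refine ⟨TF.and F₀ G, u, TF.and S G, M ∪ (TF.occ F ∩ TF.occ G), ?_, ?_, ?_, ?_, ?_, ?_, ?_,
          ?_, h9, h10⟩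
        · intro r x; simp only [TF.eval, h1 r x]
          cases TF.eval r x F₀ <;> cases TF.eval r x G <;> simp
        · simp only [TF.L]; omega
        · rw [TF.occ_and, TF.occ_and]; exact union_subset_union_left h3
        · rw [TF.occ_and]; exact h4.trans subset_union_left
        · rw [TF.occ_and, TF.occ_and]; exact union_subset_union_left h5
        · rw [TF.occ_and, union_inter_distrib_right]
          refine union_subset_union h6 ?_
          rw [inter_comm (TF.occ G)]
          exact inter_subset_inter_right h4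
        · have := card_union_le M (TF.occ F ∩ TF.occ G)
          simp only [shr]; omega
        · have : (TF.occ F₀ ∩ TF.occ G).card ≤ (TF.occ F ∩ TF.occ G).card :=
            card_le_card (inter_subset_inter_right h3)
          simp only [shr]; omega
    · by_cases hs : 3 * (TF.occ G).card ≤ 2 * K
      · refine ⟨TF.fls, G, F, TF.occ F ∩ TF.occ G, ?_, ?_, ?_, ?_, ?_, ?_, ?_, ?_, ?_, hs⟩
        · intro r x; simp only [TF.eval]; cases TF.eval r x F <;> cases TF.eval r x G <;> rfl
        · simp only [TF.L]; omega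
        · rw [TF.occ_fls]; exact empty_subset _
        · rw [TF.occ_and]; exact subset_union_right
        · rw [TF.occ_and]; exact subset_union_left
        · exact Subset.rfl
        · simp only [shr]; omega
        · simp only [shr]; omega
        · omega
      · obtain ⟨F₀, u, S, M, h1, h2, h3, h4, h5, h6, h7, h8, h9, h10⟩ := ihG (by omega)
        refine ⟨TF.and F₀ F, u, TF.and S F, M ∪ (TF.occ F ∩ TF.occ G), ?_, ?_, ?_, ?_, ?_, ?_, ?_,
          ?_, h9, h10⟩
        · intro r x; simp only [TF.eval, h1 r x]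
          cases TF.eval r x F₀ <;> cases TF.eval r x F <;> simp
        · simp only [TF.L]; omega
        · rw [TF.occ_and, TF.occ_and, union_comm (TF.occ F) (TF.occ G)]
          exact union_subset_union_left h3
        · rw [TF.occ_and]; exact h4.trans subset_union_right
        · rw [TF.occ_and, TF.occ_and, union_comm (TF.occ F) (TF.occ G)]
          exact union_subset_union_left h5
        · rw [TF.occ_and, union_inter_distrib_right]
          refine union_subset_union h6 ?_
          exact inter_subset_inter_left h4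
        · have := card_union_le M (TF.occ F ∩ TF.occ G)
          simp only [shr]; omega
        · have : (TF.occ F₀ ∩ TF.occ F).card ≤ (TF.occ F ∩ TF.occ G).card := by
            rw [inter_comm (TF.occ F) (TF.occ G)]
            exact card_le_card (inter_subset_inter_right h3)
          simp only [shr]; omega

theorem rc_half' (F : TF V R) (r : R) (D M W Y : Finset V) (hF : TF.occ F ⊆ D ∪ M) (hD : D ⊆ W)
    (hM : M ⊆ W) :
    ∃ N : ℕ, (N : ℝ) ≤ 2 ^ M.card * Dec.sq D.card ∧
      RC (fun x => TF.eval r x F = true) Y (W \ Y) N := by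
  have h0 := inter_sdiff_card D Y
  rcases le_total (D ∩ Y).card (D \ Y).card with h | h
  · refine ⟨_, ?_, rc_left F r (D ∪ M) W Y hF (union_subset hD hM)⟩
    have h1 : ((D ∪ M) ∩ Y).card ≤ M.card + (D ∩ Y).card := by
      rw [union_inter_distrib_right]
      refine (card_union_le _ _).trans ?_
      have : (M ∩ Y).card ≤ M.card := card_le_card inter_subset_left
      omega
    push_cast
    calc (2 : ℝ) ^ ((D ∪ M) ∩ Y).card ≤ 2 ^ (M.card + (D ∩ Y).card) :=
          pow_le_pow_right₀ (by norm_num) h1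
      _ = 2 ^ M.card * 2 ^ (D ∩ Y).card := pow_add _ _ _
      _ ≤ _ := mul_le_mul_of_nonneg_left (pow_le_sq (by omega)) (by positivity)
  · refine ⟨_, ?_, rc_right F r (D ∪ M) W Y hF (union_subset hD hM)⟩
    have h1 : ((D ∪ M) \ Y).card ≤ M.card + (D \ Y).card := by
      rw [union_sdiff_distrib]
      refine (card_union_le _ _).trans ?_
      have : (M \ Y).card ≤ M.card := card_le_card sdiff_subset
      omega
    push_cast
    calc (2 : ℝ) ^ ((D ∪ M) \ Y).card ≤ 2 ^ (M.card + (D \ Y).card) :=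
          pow_le_pow_right₀ (by norm_num) h1
      _ = 2 ^ M.card * 2 ^ (D \ Y).card := pow_add _ _ _
      _ ≤ _ := mul_le_mul_of_nonneg_left (pow_le_sq (by omega)) (by positivity)

theorem rc_unbal' (τ : ℕ) (F : TF V R) (r : R) (D M W Y : Finset V) (hF : TF.occ F ⊆ D ∪ M)
    (hD : D ⊆ W) (hM : M ⊆ W) (hNB : D ∩ Y ∉ NB τ D) :
    ∃ N : ℕ, (N : ℝ) * 2 ^ τ ≤ 2 ^ M.card * Dec.sq D.card ∧
      RC (fun x => TF.eval r x F = true) Y (W \ Y) N := by
  have h0 := inter_sdiff_card D Y
  have h : D.card + 2 * τ ≤ 2 * (D ∩ Y).card ∨ 2 * (D ∩ Y).card + 2 * τ ≤ D.card := by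
    by_contra hc
    apply hNB
    rw [NB, mem_filter, mem_powerset]
    exact ⟨inter_subset_left, by omega, by omega⟩
  rcases h with h | h
  · refine ⟨_, ?_, rc_right F r (D ∪ M) W Y hF (union_subset hD hM)⟩
    have h1 : ((D ∪ M) \ Y).card ≤ M.card + (D \ Y).card := by
      rw [union_sdiff_distrib]
      refine (card_union_le _ _).trans ?_
      have : (M \ Y).card ≤ M.card := card_le_card sdiff_subset
      omega
    push_cast
    calc (2 : ℝ) ^ ((D ∪ M) \ Y).card * 2 ^ τ ≤ 2 ^ (M.card + (D \ Y).card) * 2 ^ τ :=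
          mul_le_mul_of_nonneg_right (pow_le_pow_right₀ (by norm_num) h1) (by positivity)
      _ = 2 ^ M.card * 2 ^ ((D \ Y).card + τ) := by rw [pow_add, pow_add]; ring
      _ ≤ _ := mul_le_mul_of_nonneg_left (pow_le_sq (by omega)) (by positivity)
  · refine ⟨_, ?_, rc_left F r (D ∪ M) W Y hF (union_subset hD hM)⟩
    have h1 : ((D ∪ M) ∩ Y).card ≤ M.card + (D ∩ Y).card := by
      rw [union_inter_distrib_right]
      refine (card_union_le _ _).trans ?_
      have : (M ∩ Y).card ≤ M.card := card_le_card inter_subset_left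
      omega
    push_cast
    calc (2 : ℝ) ^ ((D ∪ M) ∩ Y).card * 2 ^ τ ≤ 2 ^ (M.card + (D ∩ Y).card) * 2 ^ τ :=
          mul_le_mul_of_nonneg_right (pow_le_pow_right₀ (by norm_num) h1) (by positivity)
      _ = 2 ^ M.card * 2 ^ ((D ∩ Y).card + τ) := by rw [pow_add, pow_add]; ring
      _ ≤ _ := mul_le_mul_of_nonneg_left (pow_le_sq (by omega)) (by positivity)

/-- Few rectangles suffice for the split `Y`, `W \ Y`. -/
def Cov (τ : ℕ) (F : TF V R) (W Y : Finset V) : Prop :=
  ∀ r : R, ∃ N : ℕ, (N : ℝ) * 2 ^ τ ≤ (TF.L F : ℝ) * 2 ^ shr F * Dec.sq W.card ∧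
    RC (fun x => TF.eval r x F = true) Y (W \ Y) N

open Classical in
/-- The bad sets. -/
noncomputable def Bad (τ : ℕ) (F : TF V R) (W : Finset V) : Finset (Finset V) :=
  W.powerset.filter fun Y => ¬ Cov τ F W Y

theorem mem_Bad {τ : ℕ} {F : TF V R} {W Y : Finset V} :
    Y ∈ Bad τ F W ↔ Y ⊆ W ∧ ¬ Cov τ F W Y := by
  classical
  rw [Bad, mem_filter, mem_powerset]

theorem bad_empty {τ : ℕ} {F : TF V R} {W : Finset V} (h : ∀ Y ⊆ W, Cov τ F W Y) :
    Bad τ F W = ∅ := by
  rw [eq_empty_iff_forall_notMem]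
  intro Y hY
  rw [mem_Bad] at hY
  exact hY.2 (h Y hY.1)

theorem bad_le {τ : ℕ} {F : TF V R} {W : Finset V} : (Bad τ F W).card ≤ 2 ^ W.card := by
  rw [← card_powerset]
  apply card_le_card
  intro Y hY
  exact mem_powerset.2 (mem_Bad.1 hY).1

theorem cov_of_L_zero (τ : ℕ) (F : TF V R) (W Y : Finset V) (h : TF.L F = 0) :
    Cov τ F W Y := by
  intro r
  refine ⟨0, ?_, RC.of_false _ _ fun x => ?_⟩
  · simp [h]
  · simp [TF.eval_of_L_zero F h r x]

theorem one_le_two_pow (n : ℕ) : (1 : ℝ) ≤ 2 ^ n := one_le_pow₀ (by norm_num)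

theorem cov_of_small (τ : ℕ) (F : TF V R) (W Y : Finset V) (hF : TF.occ F ⊆ W)
    (h : (TF.occ F).card + 2 * τ ≤ W.card) : Cov τ F W Y := by
  by_cases h0 : TF.L F = 0
  · exact cov_of_L_zero τ F W Y h0
  intro r
  obtain ⟨N, hN, hRC⟩ := rc_half F r (TF.occ F) W Y Subset.rfl hF
  refine ⟨N, ?_, hRC⟩
  have h1 : (1 : ℝ) ≤ TF.L F := by exact_mod_cast Nat.one_le_iff_ne_zero.2 h0
  have h2 : (1 : ℝ) ≤ (TF.L F : ℝ) * 2 ^ shr F := one_le_mul_of_one_le_of_one_le h1
    (one_le_two_pow _)
  calc (N : ℝ) * 2 ^ τ ≤ Dec.sq (TF.occ F).card * Dec.sq (2 * τ) := by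
        rw [sq_two_mul]
        exact mul_le_mul_of_nonneg_right hN (by positivity)
    _ = Dec.sq ((TF.occ F).card + 2 * τ) := (sq_add _ _).symm
    _ ≤ Dec.sq W.card := by
        unfold Dec.sq
        exact Real.sqrt_le_sqrt (pow_le_pow_right₀ (by norm_num) h)
    _ ≤ (TF.L F : ℝ) * 2 ^ shr F * Dec.sq W.card := le_mul_of_one_le_left (sq_nonneg _) h2

/-- The recurrence for covers. -/
theorem cov_step (τ : ℕ) (F F₀ u S : TF V R) (M W Y : Finset V) (hW : TF.occ F ⊆ W)
    (hval : ∀ r x, TF.eval r x F = (TF.eval r x F₀ || (TF.eval r x u && TF.eval r x S)))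
    (hL : TF.L F₀ + TF.L u ≤ TF.L F) (hu : (TF.occ u).Nonempty)
    (huF : TF.occ u ⊆ TF.occ F) (hSF : TF.occ S ⊆ TF.occ F)
    (hM : TF.occ S ∩ TF.occ u ⊆ M) (hsh : M.card + shr u ≤ shr F) (hsh₀ : shr F₀ ≤ shr F)
    (h0 : Cov τ F₀ W Y)
    (h1 : (W \ TF.occ u) ∩ Y ∉ NB τ (W \ TF.occ u) ∨ Cov τ u (TF.occ u) (TF.occ u ∩ Y)) :
    Cov τ F W Y := by
  intro r
  have huW : TF.occ u ⊆ W := huF.trans hW
  have hSW : TF.occ S ⊆ (W \ TF.occ u) ∪ (TF.occ S ∩ TF.occ u) := by
    intro i hi
    rw [mem_union, mem_sdiff, mem_inter]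
    by_cases h : i ∈ TF.occ u
    · exact Or.inr ⟨hi, h⟩
    · exact Or.inl ⟨hW (hSF hi), h⟩
  have hM' : TF.occ S ∩ TF.occ u ⊆ W := inter_subset_right.trans huW
  have hMc : (TF.occ S ∩ TF.occ u).card ≤ M.card := card_le_card hM
  have hcard : (TF.occ u).card + (W \ TF.occ u).card = W.card := by
    rw [card_sdiff_of_subset huW]
    have := card_le_card huW
    omega
  have hLu : (1 : ℝ) ≤ TF.L u := by exact_mod_cast TF.one_le_L_of_occ u hu
  obtain ⟨N₀, hN₀, hRC₀⟩ := h0 r
  have hp : ∀ {a b : ℕ}, a ≤ b → (2 : ℝ) ^ a ≤ 2 ^ b := fun h =>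
    pow_le_pow_right₀ (by norm_num) h
  have key : ∃ N : ℕ, (N : ℝ) * 2 ^ τ ≤ (TF.L u : ℝ) * 2 ^ shr F * Dec.sq W.card ∧
      RC (fun x => TF.eval r x u = true ∧ TF.eval r x S = true) Y (W \ Y) N := by
    rcases h1 with h1 | h1
    · obtain ⟨N, hN, hRC⟩ := rc_unbal' τ S r (W \ TF.occ u) _ W Y hSW sdiff_subset hM' h1
      obtain ⟨K, hK, hRC'⟩ := rc_half u r (TF.occ u) W Y Subset.rfl huW
      refine ⟨K * N, ?_, hRC'.and hRC⟩
      push_cast
      calc (K : ℝ) * N * 2 ^ τ = K * (N * 2 ^ τ) := by ring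
        _ ≤ Dec.sq (TF.occ u).card * (2 ^ (TF.occ S ∩ TF.occ u).card * Dec.sq (W \ TF.occ u).card) :=
            mul_le_mul hK hN (by positivity) (sq_nonneg _)
        _ = 2 ^ (TF.occ S ∩ TF.occ u).card * Dec.sq W.card := by rw [← hcard, sq_add]; ring
        _ ≤ 2 ^ shr F * Dec.sq W.card :=
            mul_le_mul_of_nonneg_right (hp (by omega)) (sq_nonneg _)
        _ ≤ (TF.L u : ℝ) * (2 ^ shr F * Dec.sq W.card) :=
            le_mul_of_one_le_left (mul_nonneg (by positivity) (sq_nonneg _)) hLu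
        _ = _ := by ring
    · obtain ⟨K, hK, hRC'⟩ := h1 r
      obtain ⟨N, hN, hRC⟩ := rc_half' S r (W \ TF.occ u) _ W Y hSW sdiff_subset hM'
      refine ⟨K * N, ?_, RC.and (hRC'.mono inter_subset_right ?_ le_rfl) hRC⟩
      · push_cast
        calc (K : ℝ) * N * 2 ^ τ = (K * 2 ^ τ) * N := by ring
          _ ≤ ((TF.L u : ℝ) * 2 ^ shr u * Dec.sq (TF.occ u).card) *
                (2 ^ (TF.occ S ∩ TF.occ u).card * Dec.sq (W \ TF.occ u).card) :=
              mul_le_mul hK hN (by positivity) (mul_nonneg (by positivity) (sq_nonneg _))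
          _ = (TF.L u : ℝ) * 2 ^ (shr u + (TF.occ S ∩ TF.occ u).card) * Dec.sq W.card := by
              rw [← hcard, sq_add, pow_add]; ring
          _ ≤ (TF.L u : ℝ) * 2 ^ shr F * Dec.sq W.card :=
              mul_le_mul_of_nonneg_right (mul_le_mul_of_nonneg_left (hp (by omega))
                (by positivity)) (sq_nonneg _)
      · intro i hi
        rw [mem_sdiff, mem_inter] at hi
        rw [mem_sdiff]
        exact ⟨huW hi.1, fun hY => hi.2 ⟨hi.1, hY⟩⟩
  obtain ⟨N₁, hN₁, hRC₁⟩ := key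
  refine ⟨N₀ + N₁, ?_, (hRC₀.or hRC₁).congr fun x => ?_⟩
  · push_cast
    have hL' : (TF.L F₀ : ℝ) + TF.L u ≤ TF.L F := by exact_mod_cast hL
    calc ((N₀ : ℝ) + N₁) * 2 ^ τ = N₀ * 2 ^ τ + N₁ * 2 ^ τ := by ring
      _ ≤ (TF.L F₀ : ℝ) * 2 ^ shr F₀ * Dec.sq W.card + (TF.L u : ℝ) * 2 ^ shr F * Dec.sq W.card :=
          add_le_add hN₀ hN₁
      _ ≤ (TF.L F₀ : ℝ) * 2 ^ shr F * Dec.sq W.card + (TF.L u : ℝ) * 2 ^ shr F * Dec.sq W.card :=
          add_le_add (mul_le_mul_of_nonneg_right (mul_le_mul_of_nonneg_left (hp hsh₀)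
            (by positivity)) (sq_nonneg _)) le_rfl
      _ = ((TF.L F₀ : ℝ) + TF.L u) * (2 ^ shr F * Dec.sq W.card) := by ring
      _ ≤ (TF.L F : ℝ) * (2 ^ shr F * Dec.sq W.card) :=
          mul_le_mul_of_nonneg_right hL' (mul_nonneg (by positivity) (sq_nonneg _))
      _ = _ := by ring
  · rw [hval r x, Bool.or_eq_true, Bool.and_eq_true]

/-- **Counting.** -/
theorem bad_card (τ t q : ℕ) (hτ : 2 * τ ≤ t) (ht : 1 ≤ t)
    (hNB : ∀ D : Finset V, t ≤ D.card → (NB τ D).card * q ≤ 2 ^ D.card) :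
    ∀ (lev : ℕ) (l : ℕ) (F : TF V R), TF.L F = l →
      ∀ W : Finset V, TF.occ F ⊆ W → 3 ^ lev * t ≤ W.card →
      (Bad τ F W).card * q ^ lev ≤ TF.L F * 2 ^ W.card := by
  intro lev
  induction lev with
  | zero =>
    intro l F _ W _ _
    by_cases h0 : TF.L F = 0
    · have : Bad τ F W = ∅ := bad_empty fun Y _ => cov_of_L_zero τ F W Y h0
      simp [this]
    · have h1 : (Bad τ F W).card ≤ 2 ^ W.card := bad_le
      rw [pow_zero, mul_one]
      exact h1.trans (Nat.le_mul_of_pos_left _ (Nat.pos_of_ne_zero h0))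
  | succ lev ih =>
    intro l
    induction l using Nat.strong_induction_on with
    | _ l ihl =>
      intro F hFl W hW hcard
      have h3 : 3 ^ lev * t ≥ t := Nat.le_mul_of_pos_left _ (by positivity)
      have hcard' : 3 * (3 ^ lev * t) ≤ W.card := by
        rw [← mul_assoc, mul_comm 3, ← pow_succ]; exact hcard
      by_cases hsm : 3 * (TF.occ F).card ≤ 2 * W.card
      · have : Bad τ F W = ∅ := bad_empty fun Y _ => cov_of_small τ F W Y hW (by omega)
        simp [this]
      · obtain ⟨F₀, u, S, M, h1, h2, h3', h4, h4', h4M, h4s, h4s', h5, h6⟩ :=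
          split W.card (by omega) F (by omega)
        have hu : (TF.occ u).Nonempty := by
          rw [← card_pos]; omega
        have hLu := TF.one_le_L_of_occ u hu
        have huW : TF.occ u ⊆ W := h4.trans hW
        have hcd : (W \ TF.occ u).card = W.card - (TF.occ u).card := card_sdiff_of_subset huW
        have hF₀W : TF.occ F₀ ⊆ W := h3'.trans hW
        have hb₀ := ihl (TF.L F₀) (by omega) F₀ rfl W hF₀W hcard
        have hbu := ih (TF.L u) u rfl (TF.occ u) Subset.rfl (by omega)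
        have hnb := hNB (W \ TF.occ u) (by omega)
        -- the inclusion
        have hincl : (Bad τ F W).card ≤ (Bad τ F₀ W).card +
            (NB τ (W \ TF.occ u)).card * (Bad τ u (TF.occ u)).card := by
          have hsub : Bad τ F W ⊆ Bad τ F₀ W ∪
              ((Bad τ F W).filter fun Y => (W \ TF.occ u) ∩ Y ∈ NB τ (W \ TF.occ u) ∧
                TF.occ u ∩ Y ∈ Bad τ u (TF.occ u)) := by
            intro Y hY
            have hY' := hY
            rw [mem_Bad] at hY'
            rw [mem_union, mem_filter]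
            by_cases h0 : Cov τ F₀ W Y
            · right
              refine ⟨hY, ?_, ?_⟩
              · by_contra hc
                exact hY'.2 (cov_step τ F F₀ u S M W Y hW h1 h2 hu h4 h4' h4M h4s h4s' h0
                  (Or.inl hc))
              · rw [mem_Bad]
                refine ⟨inter_subset_left, fun hc => ?_⟩
                exact hY'.2 (cov_step τ F F₀ u S M W Y hW h1 h2 hu h4 h4' h4M h4s h4s' h0
                  (Or.inr hc))
            · left
              rw [mem_Bad]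
              exact ⟨hY'.1, h0⟩
          refine (card_le_card hsub).trans ((card_union_le _ _).trans ?_)
          apply Nat.add_le_add_left
          rw [← card_product]
          apply card_le_card_of_injOn (fun Y => ((W \ TF.occ u) ∩ Y, TF.occ u ∩ Y))
          · intro Y hY
            rw [mem_coe, mem_filter] at hY
            rw [mem_coe, mem_product]
            exact hY.2
          · intro Y hY Y' hY' he
            rw [mem_coe, mem_filter, mem_Bad] at hY hY'
            rw [Prod.mk.injEq] at he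
            ext i
            by_cases hiu : i ∈ TF.occ u
            · have := congrArg (fun T => i ∈ T) he.2
              simp only [mem_inter, hiu, true_and] at this
              rw [this]
            · by_cases hiW : i ∈ W
              · have := congrArg (fun T => i ∈ T) he.1
                simp only [mem_inter, mem_sdiff, hiu, hiW, not_false_eq_true, true_and] at this
                rw [this]
              · constructor
                · intro h; exact absurd (hY.1.1 h) hiW
                · intro h; exact absurd (hY'.1.1 h) hiW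
        calc (Bad τ F W).card * q ^ (lev + 1)
            ≤ ((Bad τ F₀ W).card +
                (NB τ (W \ TF.occ u)).card * (Bad τ u (TF.occ u)).card) * q ^ (lev + 1) :=
              Nat.mul_le_mul_right _ hincl
          _ = (Bad τ F₀ W).card * q ^ (lev + 1) +
                ((NB τ (W \ TF.occ u)).card * q) *
                  ((Bad τ u (TF.occ u)).card * q ^ lev) := by ring
          _ ≤ TF.L F₀ * 2 ^ W.card +
                2 ^ (W \ TF.occ u).card * (TF.L u * 2 ^ (TF.occ u).card) :=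
              Nat.add_le_add hb₀ (Nat.mul_le_mul hnb hbu)
          _ = (TF.L F₀ + TF.L u) * 2 ^ W.card := by
              have : 2 ^ W.card = 2 ^ (W \ TF.occ u).card * 2 ^ (TF.occ u).card := by
                rw [← pow_add]; congr 1
                have := card_le_card huW
                omega
              rw [this]; ring
          _ ≤ TF.L F * 2 ^ W.card := Nat.mul_le_mul_right _ h2

theorem exists_good (τ t q lev k : ℕ) (hV : Fintype.card V = 2 * k) (hk : 0 < k)
    (hτ : 2 * τ ≤ t) (ht : 1 ≤ t)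
    (hNB : ∀ D : Finset V, t ≤ D.card → (NB τ D).card * q ≤ 2 ^ D.card)
    (hlev : 3 ^ lev * t ≤ 2 * k) (F : TF V R)
    (hL : TF.L F * (2 * k) < q ^ lev) :
    ∃ Y : Finset V, Y.card = k ∧ ∀ r : R, ∃ N : ℕ,
      (N : ℝ) * 2 ^ τ ≤ TF.L F * 2 ^ shr F * 2 ^ k ∧
      RC (fun x => TF.eval r x F = true) Y Yᶜ N := by
  classical
  have hbad := bad_card τ t q hτ ht hNB lev _ F rfl univ (subset_univ _)
    (by rw [card_univ, hV]; exact hlev)
  rw [card_univ, hV] at hbad
  by_contra hcon
  have hall : powersetCard k (univ : Finset V) ⊆ Bad τ F univ := by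
    intro Y hY
    rw [mem_powersetCard] at hY
    rw [mem_Bad]
    refine ⟨hY.1, fun hc => hcon ⟨Y, hY.2, fun r => ?_⟩⟩
    obtain ⟨N, hN, hRC⟩ := hc r
    rw [card_univ, hV, sq_two_mul] at hN
    refine ⟨N, hN, ?_⟩
    rw [compl_eq_univ_sdiff]
    exact hRC
  have hc := card_le_card hall
  rw [card_powersetCard, card_univ, hV] at hc
  have hcb := Nat.four_pow_le_two_mul_self_mul_centralBinom k hk
  rw [Nat.centralBinom_eq_two_mul_choose] at hcb
  have h4 : 2 ^ (2 * k) = 4 ^ k := by rw [pow_mul]; norm_num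
  rw [h4] at hbad
  have hq : 4 ^ k * q ^ lev ≤ 4 ^ k * (TF.L F * (2 * k)) := by
    calc 4 ^ k * q ^ lev ≤ (2 * k * (2 * k).choose k) * q ^ lev := Nat.mul_le_mul_right _ hcb
      _ ≤ (2 * k * (Bad τ F univ).card) * q ^ lev :=
          Nat.mul_le_mul_right _ (Nat.mul_le_mul_left _ hc)
      _ = 2 * k * ((Bad τ F univ).card * q ^ lev) := by ring
      _ ≤ 2 * k * (TF.L F * 4 ^ k) := Nat.mul_le_mul_left _ hbad
      _ = 4 ^ k * (TF.L F * (2 * k)) := by ring
  have := Nat.le_of_mul_le_mul_left hq (by positivity)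
  omega

theorem nb_card' (τ q : ℕ) (D : Finset V) (h : (2 * τ * q) ^ 2 ≤ D.card) :
    (NB τ D).card * q ≤ 2 ^ D.card := by
  set n := D.card with hn
  set J := (range (n + 1)).filter fun j => 2 * j < n + 2 * τ ∧ n < 2 * j + 2 * τ with hJ
  have hJc : J.card ≤ 2 * τ := by
    have : J.card ≤ (Icc (n / 2 + 1) (n / 2 + 2 * τ)).card := by
      apply card_le_card_of_injOn (fun j => j + τ)
      · intro j hj
        rw [mem_coe, hJ, mem_filter] at hj
        rw [mem_coe, mem_Icc]
        constructor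
        · show n / 2 + 1 ≤ j + τ
          omega
        · show j + τ ≤ n / 2 + 2 * τ
          omega
      · intro a _ b _ hab
        exact Nat.add_right_cancel hab
    rw [Nat.card_Icc] at this
    omega
  have hsub : NB τ D ⊆ J.biUnion fun j => powersetCard j D := by
    intro T hT
    rw [NB, mem_filter, mem_powerset] at hT
    rw [mem_biUnion]
    refine ⟨T.card, ?_, ?_⟩
    · rw [hJ, mem_filter, mem_range]
      have := card_le_card hT.1
      exact ⟨by omega, hT.2.1, hT.2.2⟩
    · rw [mem_powersetCard]; exact ⟨hT.1, rfl⟩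
  have hcard : (NB τ D).card ≤ 2 * τ * n.choose (n / 2) := by
    refine (card_le_card hsub).trans (card_biUnion_le.trans ?_)
    refine (sum_le_card_nsmul _ _ (n.choose (n / 2)) ?_).trans ?_
    · intro j _
      rw [card_powersetCard]
      exact Nat.choose_le_middle _ _
    · rw [smul_eq_mul]
      exact Nat.mul_le_mul_right _ hJc
  have hsq : ((NB τ D).card * q) ^ 2 ≤ (2 ^ n) ^ 2 := by
    calc ((NB τ D).card * q) ^ 2 ≤ (2 * τ * n.choose (n / 2) * q) ^ 2 :=
          Nat.pow_le_pow_left (Nat.mul_le_mul_right _ hcard) 2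
      _ = (n.choose (n / 2)) ^ 2 * (2 * τ * q) ^ 2 := by ring
      _ ≤ (n.choose (n / 2)) ^ 2 * n := Nat.mul_le_mul_left _ h
      _ ≤ 4 ^ n := choose_half_sq n
      _ = (2 ^ n) ^ 2 := by rw [← pow_mul, mul_comm, pow_mul]; norm_num
  exact (Nat.pow_le_pow_iff_left (by norm_num)).1 hsq

/-- **The lower bound for tracked formulas.** -/
theorem tracked_lower {R : Type} (h i j : ℕ) (hij : i + j + 1 ≤ h)
    (hV : Fintype.card V = 2 ^ (2 * h))
    (F : TF V R) (d m : ℕ) (hL : TF.L F ≤ 2 ^ d) (hm : shr F ≤ m)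
    (hf : ∀ Y : Finset V, 2 * Y.card = 2 ^ (2 * h) → ∃ (ρ : R) (π : V → V),
      (∀ y ∈ Y, π y ∉ Y) ∧ Set.InjOn π Y ∧
      ∀ x : V → Bool, TF.eval ρ x F = true ↔ ∀ y ∈ Y, x y = x (π y)) :
    i * j ≤ d + 2 * h ∨ 2 ^ (h - i - j - 1) ≤ d + m := by
  by_contra hcon
  rw [not_or] at hcon
  obtain ⟨hc1, hc2⟩ := hcon
  push Not at hc1 hc2
  obtain ⟨a, ha⟩ : ∃ a, a = h - i - j - 1 := ⟨_, rfl⟩
  rw [← ha] at hc2
  have hh : 2 * h = (2 * h - 1) + 1 := by omega
  have hcard : Fintype.card V = 2 * 2 ^ (2 * h - 1) := by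
    rw [hV, ← pow_succ', ← hh]
  have hLq : TF.L F * (2 * 2 ^ (2 * h - 1)) < (2 ^ i) ^ j := by
    calc TF.L F * (2 * 2 ^ (2 * h - 1)) ≤ 2 ^ d * (2 * 2 ^ (2 * h - 1)) :=
          Nat.mul_le_mul_right _ hL
      _ = 2 ^ (d + 2 * h) := by
          rw [← pow_succ', ← pow_add, ← hh]
      _ < 2 ^ (i * j) := Nat.pow_lt_pow_right (by norm_num) hc1
      _ = (2 ^ i) ^ j := by rw [← pow_mul]
  have ht : (2 * 2 ^ a * 2 ^ i) ^ 2 = 2 ^ (2 * (a + i + 1)) := by
    rw [← pow_succ', ← pow_add, ← pow_mul]; congr 1; ring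
  have hlev : 3 ^ j * (2 * 2 ^ a * 2 ^ i) ^ 2 ≤ 2 * 2 ^ (2 * h - 1) := by
    rw [ht]
    calc 3 ^ j * 2 ^ (2 * (a + i + 1)) ≤ 4 ^ j * 2 ^ (2 * (a + i + 1)) :=
          Nat.mul_le_mul_right _ (Nat.pow_le_pow_left (by norm_num) j)
      _ = 2 ^ (2 * j + 2 * (a + i + 1)) := by
          rw [show (4 : ℕ) = 2 ^ 2 by norm_num, ← pow_mul, ← pow_add]
      _ = 2 ^ ((2 * h - 1) + 1) := by congr 1; omega
      _ = 2 * 2 ^ (2 * h - 1) := pow_succ' _ _
  obtain ⟨Y, hY, hcov⟩ := exists_good (2 ^ a) ((2 * 2 ^ a * 2 ^ i) ^ 2) (2 ^ i) j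
    (2 ^ (2 * h - 1)) hcard (by positivity) (by
      rw [ht, ← pow_succ']
      exact Nat.pow_le_pow_right (by norm_num) (by omega)) (Nat.one_le_pow _ _ (by positivity))
      (fun D hD => nb_card' _ _ D hD) hlev F hLq
  obtain ⟨ρ, π, hπ, hinj, hval⟩ := hf Y (by rw [hY, ← pow_succ', ← hh])
  obtain ⟨N, hN, hRC⟩ := hcov ρ
  have hfool := hRC.fooling π disjoint_compl_right (fun y hy => mem_compl.2 (hπ y hy)) hinj hval
  rw [hY] at hfool
  have h1 : (2 : ℝ) ^ (2 ^ (2 * h - 1)) ≤ N := by exact_mod_cast hfool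
  have h2 : (2 : ℝ) ^ (2 ^ (2 * h - 1)) * 2 ^ (2 ^ a) ≤
      TF.L F * 2 ^ shr F * 2 ^ (2 ^ (2 * h - 1)) :=
    (mul_le_mul_of_nonneg_right h1 (by positivity)).trans hN
  have h3 : (2 : ℝ) ^ (2 ^ a) ≤ TF.L F * 2 ^ shr F := by
    rw [mul_comm] at h2
    exact le_of_mul_le_mul_right h2 (by positivity)
  have h4 : (2 : ℕ) ^ (2 ^ a) ≤ 2 ^ (d + m) := by
    have h5 : (2 : ℕ) ^ (2 ^ a) ≤ TF.L F * 2 ^ shr F := by exact_mod_cast h3
    calc (2 : ℕ) ^ (2 ^ a) ≤ TF.L F * 2 ^ shr F := h5
      _ ≤ 2 ^ d * 2 ^ m := Nat.mul_le_mul hL (Nat.pow_le_pow_right (by norm_num) hm)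
      _ = 2 ^ (d + m) := (pow_add _ _ _).symm
  have h5 := (Nat.pow_le_pow_iff_right (by norm_num : 1 < 2)).1 h4
  omega

end Pool.Agent.TH708.Dsh
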