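import Pool.Agent.TH708.Dsh.Core
import Pool.Agent.TH708.Dec.Lower

set_option linter.unusedSectionVars false
set_option autoImplicit false

/-!
# Circuits for the bracket language whose AND gates share few type bits
-/

namespace Pool.Agent.TH708.Dsh

open Finset Pool.Agent.TH708.Dec

/-- The positions in `W` whose type bits are read below both nodes `a` and `b` of the circuit. -/
def common {n : ℕ} (C : Ckt (Fin n × Fin 3)) (W : Finset (Fin n)) (a b : C.G) :
    Finset (Fin n) :=
  W.filter fun i => 1 ≤ (C.tree a).deg (i, 2) ∧ 1 ≤ (C.tree b).deg (i, 2)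

theorem shr_tree {n : ℕ} (C : Ckt (Fin n × Fin 3)) (W W' : Finset (Fin n)) (hW : W' ⊆ W) (μ : ℕ)
    (hμ : ∀ g a b, C.kind g = Kind.and a b → (common C W a b).card ≤ μ)
    (e : ↥W' → Fin n × Fin 3) (he : Function.Injective e) (hee : ∀ i, e i = (i.1, 2)) :
    ∀ (k : ℕ) (g : C.G), C.rank g = k → shr (conv e (C.tree g)) ≤ μ * (C.tree g).depth := by
  intro k
  induction k using Nat.strong_induction_on with
  | _ k ih =>
    intro g hg
    rw [Ckt.tree]
    split
    · next i b h =>
      unfold conv
      split_ifs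
      · simp [shr]
      · simp [shr]
    · next b h => simp [conv, shr]
    · next a b h =>
      have hr := C.and_lt g a b h
      have h1 := ih (C.rank a) (by omega) a rfl
      have h2 := ih (C.rank b) (by omega) b rfl
      simp only [conv, shr, Fm.depth]
      have h3 : (TF.occ (conv e (C.tree a)) ∩ TF.occ (conv e (C.tree b))).card ≤ μ := by
        refine le_trans ?_ (hμ g a b h)
        apply card_le_card_of_injOn (fun i => i.1)
        · intro i hi
          rw [mem_coe, mem_inter, TF.mem_occ, TF.mem_occ, conv_deg e he, conv_deg e he, hee] at hi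
          rw [mem_coe, common, mem_filter]
          exact ⟨hW i.2, hi⟩
        · intro i _ i' _ hii
          exact Subtype.ext hii
      have h4 : μ * (C.tree a).depth ≤ μ * max (C.tree a).depth (C.tree b).depth :=
        Nat.mul_le_mul_left _ (le_max_left _ _)
      have h5 : μ * (C.tree b).depth ≤ μ * max (C.tree a).depth (C.tree b).depth :=
        Nat.mul_le_mul_left _ (le_max_right _ _)
      rw [Nat.mul_succ]
      omega
    · next a b h =>
      have hr := C.or_lt g a b h
      have h1 := ih (C.rank a) (by omega) a rfl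
      have h2 := ih (C.rank b) (by omega) b rfl
      simp only [conv, shr, Fm.depth]
      have h4 : μ * (C.tree a).depth ≤ μ * max (C.tree a).depth (C.tree b).depth :=
        Nat.mul_le_mul_left _ (le_max_left _ _)
      have h5 : μ * (C.tree b).depth ≤ μ * max (C.tree a).depth (C.tree b).depth :=
        Nat.mul_le_mul_left _ (le_max_right _ _)
      rw [Nat.mul_succ]
      omega

theorem circuit_lower (h i j : ℕ) (hij : i + j + 1 ≤ h) {n : ℕ} (C : Ckt (Fin n × Fin 3))
    (hC : ∀ z, Dyck (untyped z) → (C.eval z = true ↔ Dyck z))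
    (W : Finset (Fin n)) (μ : ℕ)
    (hμ : ∀ g a b, C.kind g = Kind.and a b → (common C W a b).card ≤ μ)
    (hWc : 4 ^ h ≤ W.card) :
    i * j ≤ C.depth + 2 * h ∨ 2 ^ (h - i - j - 1) ≤ (μ + 1) * C.depth := by
  classical
  have h4 : (4 : ℕ) ^ h = 2 ^ (2 * h) := by rw [show (4 : ℕ) = 2 ^ 2 by norm_num, ← pow_mul]
  rw [h4] at hWc
  obtain ⟨W', hW'W, hW⟩ := exists_subset_card_eq hWc
  let e : ↥W' → Fin n × Fin 3 := fun i => (i.1, 2)
  have he : Function.Injective e := fun a b h => Subtype.ext (congrArg Prod.fst h)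
  have hmu : (μ + 1) * C.depth = C.depth + μ * C.depth := by ring
  rw [hmu]
  refine tracked_lower h i j hij (by rw [Fintype.card_coe, hW]) (conv e (C.tree C.out))
    C.depth (μ * C.depth) (conv_L e _)
    (shr_tree C W W' hW'W μ hμ e he (fun _ => rfl) _ C.out rfl) ?_
  intro Y hY
  obtain ⟨κ, hκ⟩ : ∃ κ, κ = Y.card := ⟨_, rfl⟩
  rw [← hκ] at hY
  -- the matching
  let toN : ↥W' → ℕ := fun i => (i.1 : ℕ)
  have htoN : Function.Injective toN := fun a b h => Subtype.ext (Fin.ext h)
  let WN : Finset ℕ := W'.image Fin.val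
  let YN : Finset ℕ := Y.image toN
  have hYW : YN ⊆ WN := by
    intro i hi
    rw [mem_image] at hi
    obtain ⟨a, _, rfl⟩ := hi
    exact mem_image.2 ⟨a.1, a.2, rfl⟩
  have hYc : YN.card = κ := by
    rw [card_image_of_injective _ htoN, hκ]
  have hWcc : WN.card = 2 ^ (2 * h) := by
    rw [card_image_of_injective _ Fin.val_injective, hW]
  obtain ⟨π, hπ⟩ := exists_match κ WN YN hYW hYc (by
    rw [card_sdiff_of_subset hYW, hYc, hWcc, ← hY]; omega)
  have hmemW : ∀ i : ↥W', ∃ j : ↥W', toN j = π (toN i) := by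
    intro i
    have := hπ.mem (toN i) (mem_image.2 ⟨i.1, i.2, rfl⟩)
    rw [mem_image] at this
    obtain ⟨a, ha, hv⟩ := this
    exact ⟨⟨a, ha⟩, hv⟩
  choose σ hσ using hmemW
  have hmemY : ∀ i : ↥W', toN i ∈ YN ↔ i ∈ Y := by
    intro i
    rw [mem_image]
    constructor
    · rintro ⟨a, ha, h⟩; rw [← htoN h]; exact ha
    · intro h; exact ⟨i, h, rfl⟩
  have hinW : ∀ i : ↥W', toN i ∈ WN := fun i => mem_image.2 ⟨i.1, i.2, rfl⟩
  have hσσ : ∀ i, σ (σ i) = i := by
    intro i
    apply htoN
    rw [hσ, hσ, hπ.inv _ (hinW i)]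
  have hσY : ∀ i, i ∈ Y ↔ σ i ∉ Y := by
    intro i
    rw [← hmemY, ← hmemY (σ i), hσ]
    exact hπ.swap _ (hinW i)
  refine ⟨instr W' π, σ, fun y hy => (hσY y).1 hy, fun a _ b _ hab => ?_, fun x => ?_⟩
  · rw [← hσσ a, hab, hσσ]
  · rw [conv_eval]
    set z := merge e (instr W' π) x with hz
    have hz0 : ∀ i, z (i, 0) = instr W' π (i, 0) := fun i =>
      merge_off e _ _ _ fun j hj => by
        have := congrArg Prod.snd hj
        simp [e] at this
    have hz1 : ∀ i, z (i, 1) = instr W' π (i, 1) := fun i =>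
      merge_off e _ _ _ fun j hj => by
        have := congrArg Prod.snd hj
        simp [e] at this
    have hz2 : ∀ i : ↥W', z (i.1, 2) = x i := fun i => merge_e e he _ _ i
    have hlt : ∀ i ∈ WN, i < n := by
      intro i hi
      rw [mem_image] at hi
      obtain ⟨a, _, rfl⟩ := hi
      exact a.2
    have hbal : Dyck z ↔ ∀ y ∈ Y, x y = x (σ y) := by
      unfold Dyck
      rw [bal_iff hlt hπ (isWord_of hz0 hz1)]
      have hval : ∀ i : ↥W', (if h : toN i < n then z (⟨toN i, h⟩, 2) else false) = x i := by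
        intro i
        rw [dif_pos i.1.2, ← hz2 i]
      constructor
      · intro h y _
        have := h (toN y) (hinW y)
        rw [hval y, ← hσ y, hval (σ y)] at this
        exact this
      · intro h i hi
        obtain ⟨a, ha, rfl⟩ := mem_image.1 hi
        have h2 := hval ⟨a, ha⟩
        have h3 := hval (σ ⟨a, ha⟩)
        rw [hσ] at h3
        show (if h : (a : ℕ) < n then z (⟨(a : ℕ), h⟩, 2) else false) =
          (if h : π (a : ℕ) < n then z (⟨π (a : ℕ), h⟩, 2) else false)
        refine h2.trans (Eq.trans ?_ h3.symm)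
        by_cases hy : (⟨a, ha⟩ : ↥W') ∈ Y
        · exact h _ hy
        · have h4 : σ ⟨a, ha⟩ ∈ Y := by
            by_contra hc
            exact hy ((hσY _).2 hc)
          have h5 := h _ h4
          rw [hσσ] at h5
          exact h5.symm
    rw [← hbal]
    apply hC
    unfold Dyck
    have h0' : ∀ i, untyped z (i, 0) = instr W' π (i, 0) := fun i => by
      show (if (0 : Fin 3) = 2 then false else z (i, 0)) = _
      rw [if_neg (by decide)]; exact hz0 i
    have h1' : ∀ i, untyped z (i, 1) = instr W' π (i, 1) := fun i => by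
      show (if (1 : Fin 3) = 2 then false else z (i, 1)) = _
      rw [if_neg (by decide)]; exact hz1 i
    rw [bal_iff hlt hπ (isWord_of h0' h1')]
    intro i _
    have hf : ∀ k : ℕ, (if h : k < n then untyped z (⟨k, h⟩, 2) else false) = false := by
      intro k
      by_cases h : k < n
      · rw [dif_pos h]; rfl
      · rw [dif_neg h]
    show (if h : i < n then untyped z (⟨i, h⟩, 2) else false) =
      (if h : π i < n then untyped z (⟨π i, h⟩, 2) else false)
    rw [hf, hf]

end Pool.Agent.TH708.Dsh
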